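import Mathlib

set_option autoImplicit false

open TensorProduct MulOpposite

namespace Pool.Agent.Results.MP_ae31bd_an.Counterexample

section

variable (A : Type) [NonUnitalNormedRing A] [NormedSpace ℂ A] [IsScalarTower ℂ A A]
  [SMulCommClass ℂ A A]

def WeaklyAmenable : Prop := ∀ D : A →L[ℂ] A →L[ℂ] ℂ,
  (∀ a b c, D (a * b) c = D b (c * a) + D a (b * c)) →
    ∃ f : A →L[ℂ] ℂ, ∀ a c, D a c = f (c * a) - f (a * c)

abbrev Plus : Type := Unitization ℂ A

abbrev Env : Type := Plus A ⊗[ℂ] (Plus A)ᵐᵒᵖ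

def IsPi (π : Env A →ₗ[ℂ] Plus A) : Prop := ∀ a b, π (a ⊗ₜ op b) = a * b

def Idempotent (I : Set (Env A)) : Prop :=
  I = (Submodule.span ℂ {z | ∃ x ∈ I, ∃ y ∈ I, z = x * y} : Submodule ℂ (Env A))

def DiagonalIdempotent : Prop := ∃ π, IsPi A π ∧ Idempotent A {y | π y = 0}

end

lemma id1 {E : Type} [Ring E] (U V U' W y : E) (h : U' * V = V * U') :
    (U - U') * (V * (W * y)) - V * (U - U') * (W * y) = (U * V - V * U) * W * y := by
  simp only [mul_sub, sub_mul, ← mul_assoc, h]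
  abel

lemma id2 {E : Type} [Ring E] (a b y : E) :
    y = a * (y + y - b * y) - (a - b) * y + (1 - a - (b - a * b)) * y := by
  noncomm_ring

lemma idem (A : Type) [NormedRing A] [NormedAlgebra ℂ A] (u v : A)
    (h : (u * v - v * u) * (u * v - v * u) = 1) : DiagonalIdempotent A := by
  let π : Env A →ₗ[ℂ] Plus A := TensorProduct.lift
    ((Algebra.lmul ℂ (Plus A)).toLinearMap.compl₂ (opLinearEquiv ℂ).symm.toLinearMap)
  have hπ : ∀ a b, π (a ⊗ₜ b) = a * unop b := fun _ _ => rfl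
  have z1 : ∀ x : Env A, x * 0 = 0 := fun x => @mul_zero _ (inferInstance : Ring (Env A)).toSemiring.toNonUnitalSemiring.toNonUnitalNonAssocSemiring.toMulZeroClass x
  have z2 : ∀ x : Env A, 0 * x = 0 := fun x => @zero_mul _ (inferInstance : Ring (Env A)).toSemiring.toNonUnitalSemiring.toNonUnitalNonAssocSemiring.toMulZeroClass x
  have h1 : ∀ x y, π y = 0 → π (x * y) = 0 := fun x y hy => by
    have : ∀ a b y, π (a ⊗ₜ b * y) = a * π y * unop b := fun a b y => by
      induction y using TensorProduct.induction_on with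
      | zero => rw [z1]; simp
      | tmul c d => simp [hπ, mul_assoc]
      | add y z h1 h2 => simp only [mul_add, map_add, h1, h2, add_mul]
    induction x using TensorProduct.induction_on with
    | zero => rw [z2]; simp
    | tmul c d => simp [this, hy]
    | add y z h1 h2 => simp only [add_mul, map_add, h1, h2, add_zero]
  refine ⟨π, fun _ _ => rfl, Set.Subset.antisymm (fun y hy => ?_) (Submodule.span_le
    (p := LinearMap.ker π) |>.2 (by rintro _ ⟨x, -, y, hy, rfl⟩; exact h1 x y hy))⟩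
  set S := Submodule.span ℂ {z | ∃ x ∈ {y | π y = 0}, ∃ y ∈ {y | π y = 0}, z = x * y}
  have h2 : ∀ x y, π x = 0 → π y = 0 → x * y ∈ S := fun x y hx hy =>
    Submodule.subset_span ⟨x, hx, y, hy, rfl⟩
  have h3 : ∀ a : Plus A, π (a ⊗ₜ 1 - 1 ⊗ₜ op a) = 0 := fun a => by simp [hπ]
  have h4 : ∀ y, π y = 0 → ((1 : A) : Plus A) ⊗ₜ[ℂ] (1 : (Plus A)ᵐᵒᵖ) * y ∈ S := fun y hy => by
    have e : ((1 : A) : Plus A) ⊗ₜ[ℂ] (1 : (Plus A)ᵐᵒᵖ) * y =
        ((u : Plus A) ⊗ₜ 1 - 1 ⊗ₜ op (u : Plus A)) * ((v : Plus A) ⊗ₜ 1 *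
          (((u * v - v * u : A) : Plus A) ⊗ₜ 1 * y)) - (v : Plus A) ⊗ₜ 1 * ((u : Plus A) ⊗ₜ 1 -
          1 ⊗ₜ op (u : Plus A)) * (((u * v - v * u : A) : Plus A) ⊗ₜ 1 * y) := by
      refine Eq.trans ?_ (id1 _ _ _ _ _ (by simp)).symm
      congr 1
      simp only [Algebra.TensorProduct.tmul_mul_tmul, mul_one, ← sub_tmul, ← Unitization.inr_mul,
        ← Unitization.inr_sub, h]
    rw [e]
    exact S.sub_mem (h2 _ _ (h3 _) (h1 _ _ (h1 _ _ hy))) (h2 _ _ (h1 _ _ (h3 _)) (h1 _ _ hy))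
  let p : Plus A := 1 - ((1 : A) : Plus A)
  have h5 : ∀ y : Env A, p ⊗ₜ op p * y = (π y).fst • p ⊗ₜ op p := fun y => by
    induction y using TensorProduct.induction_on with
    | zero => rw [z1]; simp
    | tmul c d =>
      have e1 : p * c = c.fst • p := by ext <;> simp [p, sub_eq_add_neg]
      have e2 : op p * d = (unop d).fst • op p :=
        unop_injective (by ext <;> simp [p, sub_eq_add_neg])
      simp [hπ, e1, e2, smul_tmul', smul_smul, mul_comm]
    | add y z h1 h2 => simp only [mul_add, map_add, h1, h2, Unitization.fst_add, add_smul]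
  have e : y = ((1 : A) : Plus A) ⊗ₜ[ℂ] (1 : (Plus A)ᵐᵒᵖ) * (y + y - 1 ⊗ₜ op ((1 : A) : Plus A) * y) -
      (((1 : A) : Plus A) ⊗ₜ 1 - 1 ⊗ₜ op ((1 : A) : Plus A)) * y + p ⊗ₜ op p * y := by
    refine (id2 (((1 : A) : Plus A) ⊗ₜ[ℂ] 1) (1 ⊗ₜ op ((1 : A) : Plus A)) y).trans ?_
    congr 2
    simp only [p, op_sub, op_one, sub_tmul, tmul_sub, Algebra.TensorProduct.tmul_mul_tmul, mul_one,
      one_mul, ← Algebra.TensorProduct.one_def]
  have hy' : π y = 0 := hy
  rw [e, h5, hy']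
  simpa using S.sub_mem (h4 _ (by simp [hy', h1])) (h2 _ _ (h3 _) hy')

theorem result : ∃ (A : Type) (_ : NormedRing A) (_ : NormedAlgebra ℂ A) (_ : CompleteSpace A),
    FiniteDimensional ℂ A ∧ DiagonalIdempotent A ∧ ¬ WeaklyAmenable A := by
  letI := Matrix.linftyOpNormedRing (n := Fin 2) (α := DualNumber ℂ)
  letI := Matrix.linftyOpNormedAlgebra (n := Fin 2) (R := ℂ) (α := DualNumber ℂ)
  haveI : FiniteDimensional ℂ (DualNumber ℂ) := inferInstanceAs (FiniteDimensional ℂ (ℂ × ℂ))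
  refine ⟨Matrix (Fin 2) (Fin 2) (DualNumber ℂ), inferInstance, inferInstance,
    FiniteDimensional.complete ℂ _, inferInstance, idem _ !![0, 1; 0, 0] !![0, 0; 1, 0] ?_,
    fun h => ?_⟩
  · ext i j <;> fin_cases i <;> fin_cases j <;> simp [Matrix.mul_apply, Fin.sum_univ_two]
  · let D : Matrix (Fin 2) (Fin 2) (DualNumber ℂ) →ₗ[ℂ] Matrix (Fin 2) (Fin 2) (DualNumber ℂ) →ₗ[ℂ] ℂ :=
      LinearMap.mk₂ ℂ (fun a b => ∑ i, ∑ j, (a i j).snd * (b j i).fst)
        (by intros; simp; ring) (by intros; simp; ring)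
        (by intros; simp; ring) (by intros; simp; ring)
    obtain ⟨f, hf⟩ := h (LinearMap.toContinuousLinearMap
      (LinearMap.toContinuousLinearMap.toLinearMap.comp D)) fun a b c => by
        simp [D, Matrix.mul_apply, Fin.sum_univ_two]; ring
    simpa [D] using hf (Matrix.diagonal fun _ => DualNumber.eps) 1

end Pool.Agent.Results.MP_ae31bd_an.Counterexample
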